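import Pool.Agent.Lib_helper39.UE.Final

/-!
# Replica symmetry of random UE-SAT below the threshold

`k = κ + 1`. For every finite spin set `Ω` with at least two elements (squarefree size or not)
and every distribution `π` on the uniquely extendable functions satisfying (i) or (ii), the
random instance `H_n(π,k,m)` with `m < (d_k/k - ε) n` is a.a.s. satisfiable and replica
symmetric.
-/

namespace Pool.Agent.Results.MP_82d614_pr.ReplicaSymmetry

open Pool.Agent.Lib_helper39.UE

/-- Let `π` be a probability distribution on the uniquely extendable functions `Ω^k → {0,1}`,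
and assume (i) `k ≥ 4` and the set of all coordinate permutations of the functions in the
support of `π` is reducible, or (ii) `k = 3` and every function in `F_2(supp π)` is symmetric.
Then replica symmetry holds below the threshold `d_k/k`. -/
theorem result (Ω : Type) [Fintype Ω] [DecidableEq Ω] (hΩ : 2 ≤ Fintype.card Ω)
    (κ : ℕ) (hκ : 2 ≤ κ) (π : ((Fin (κ + 1) → Ω) → Bool) → ℝ)
    (hπ0 : ∀ ψ, 0 ≤ π ψ) (hπ1 : ∑ ψ, π ψ = 1) (hπU : ∀ ψ ∈ supp π, UExt ψ)
    (hyp : (3 ≤ κ ∧ Reducible (permClosure (supp π))) ∨
      (κ = 2 ∧ ∀ g ∈ Fset (supp π) 2, Symm g)) :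
    ReplicaSymmetric π := by
  have : Nonempty Ω := Fintype.card_pos_iff.1 (by omega)
  exact main hκ π hπ0 hπ1 hπU hyp

end Pool.Agent.Results.MP_82d614_pr.ReplicaSymmetry
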